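import Pool.Agent.R459.Eq18

/-! # Lang–Trotter counts for the fibres of several elliptic surfaces at the members of sparse families given by digits

Let `E_{i, n} : y² = x³ + f_i(n) x + g_i(n)`, `i < m`, be the fibres at `n` of any `m` elliptic surfaces with polynomials
`f_i, g_i` with integer coefficients. Here `n` runs through families with as few as `N ^ c` of the integers up to `N = b ^ k`,
with any `c > 0`: the rearrangements of `k` digits, the palindromes, the integers with independent pairs of mirror digits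
(in particular all integers whose `i`-th digit lies in an arbitrary set `D i` with at least two digits, for all `i`).

For almost all `n` in such a family the number of the primes `p ≤ x` in a set `T j` of primes at which all the `E_{i, n}` have
good reduction and prescribed traces `r_i` is, for all `j`, `|r_i|` up to a power of `x`, and for all `x` up to a fixed power
of `N`, equal to the sum over these `p` of the exact proportion of the residues `t` modulo `p` for which the fibres at
`t` have these traces, with an error of the size of the SQUARE ROOT of this sum. The sets `T j` are any pairwise disjoint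
sets of primes, for instance the residue classes modulo a fixed integer, or thin sets.

Definitions used: in `Pool.Agent.R459.Eq` (file `Pool/Agent/R459/Eq6.lean`): `Almost b k κ c η τ P`: almost all the
members `c + κ v` of the three families have the property `P`, up to a proportion of at most `τ`; in
`Pool.Agent.W263.BSD` (file `Pool/Agent/W263/BSD/Defs.lean`): `pointCount a n p` is the number of the solutions of
`y² = x³ + a x + n` modulo `p`, `GoodPrime a n p`: `p` is a prime which does not divide `2 (4 a³ + 27 n²)`. -/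

set_option autoImplicit false

namespace Pool.Agent.Results.MP_d74fca_nt.DigitSurfaces

open Finset Pool.Agent.R459.Eq
open Pool.Agent.W263.BSD (GoodPrime pointCount)

/-- `p` is a prime of good reduction of all the curves `y² = x³ + f_i(n) x + g_i(n)`, and their traces of Frobenius
`a_p = p - N_p` are `r_i`. -/
def Traces {m : ℕ} (f g : Fin m → Polynomial ℤ) (r : Fin m → ℤ) (p : ℕ) (n : ℤ) : Prop :=
  ∀ i, GoodPrime ((f i).eval n) ((g i).eval n) p ∧ (p : ℤ) - pointCount ((f i).eval n) ((g i).eval n) p = r i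

open Classical in
/-- The number of the primes `p ≤ x` in `T` at which all the `y² = x³ + f_i(n) x + g_i(n)` have good reduction and the traces
`r_i`. -/
noncomputable def count {m : ℕ} (f g : Fin m → Polynomial ℤ) (T : Set ℕ) (r : Fin m → ℤ) (n : ℤ) (x : ℕ) : ℕ :=
  ((range (x + 1)).filter (fun p => p.Prime ∧ p ∈ T ∧ Traces f g r p n)).card

open Classical in
/-- The sum over the primes `p ≤ x` in `T` of the proportion of the residues `t` modulo `p` for which all the
`y² = x³ + f_i(t) x + g_i(t)` have good reduction at `p` and the traces `r_i`. -/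
noncomputable def model {m : ℕ} (f g : Fin m → Polynomial ℤ) (T : Set ℕ) (r : Fin m → ℤ) (x : ℕ) : ℝ :=
  ∑ p ∈ (range (x + 1)).filter (fun p => p.Prime ∧ p ∈ T), (((range p).filter (fun t : ℕ => Traces f g r p t)).card : ℝ) / p

section codes

/-- a code of an integer -/
def ec (z : ℤ) : ℕ := 2 * z.natAbs + if z < 0 then 1 else 0

lemma ec_inj {z z' : ℤ} (h : ec z = ec z') : z = z' := by
  unfold ec at h
  split_ifs at h <;> omega

lemma ec_le (z : ℤ) : ec z ≤ 2 * z.natAbs + 1 := by
  unfold ec
  split_ifs <;> omega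

/-- a code of a list -/
def encN : List ℕ → ℕ
  | [] => 0
  | a :: l => Nat.pair a (encN l)

lemma encN_inj : ∀ (l l' : List ℕ), l.length = l'.length → encN l = encN l' → l = l' := by
  intro l
  induction l with
  | nil =>
    intro l' h _
    cases l' with
    | nil => rfl
    | cons a l' => simp at h
  | cons a l ih =>
    intro l' h h'
    cases l' with
    | nil => simp at h
    | cons a' l' =>
      have h1 := Nat.pair_eq_pair.1 h'
      rw [h1.1, ih l' (by simpa using h) h1.2]

lemma encN_le (R : ℕ) : ∀ l : List ℕ, (∀ a ∈ l, a ≤ R) → encN l + 1 ≤ (R + 1) ^ (2 ^ l.length) := by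
  intro l
  induction l with
  | nil =>
    intro _
    simp [encN]
  | cons a l ih =>
    intro h
    have h1 := ih fun a' ha' => h a' (List.mem_cons_of_mem _ ha')
    have h2 := h a List.mem_cons_self
    have h3 := Nat.pair_lt_max_add_one_sq a (encN l)
    have h4 : max a (encN l) + 1 ≤ (R + 1) ^ (2 ^ l.length) := by
      have h5 : R + 1 ≤ (R + 1) ^ (2 ^ l.length) := Nat.le_self_pow (by positivity) _
      rcases le_total a (encN l) with h6 | h6
      · rw [max_eq_right h6]
        exact h1
      · rw [max_eq_left h6]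
        omega
    have h7 := Nat.pow_le_pow_left h4 2
    rw [← pow_mul, ← pow_succ] at h7
    show Nat.pair a (encN l) + 1 ≤ _
    rw [List.length_cons]
    omega

/-- the code of a vector of integers and an index -/
def code {m : ℕ} (j : ℕ) (r : Fin m → ℤ) : ℕ := encN (j :: List.ofFn (fun i => ec (r i)))

lemma code_inj {m : ℕ} {j j' : ℕ} {r r' : Fin m → ℤ} (h : code j r = code j' r') : j = j' ∧ r = r' := by
  unfold code at h
  have h1 := encN_inj _ _ (by simp) h
  rw [List.cons.injEq] at h1
  refine ⟨h1.1, ?_⟩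
  have h2 := List.ofFn_injective h1.2
  funext i
  exact ec_inj (congrFun h2 i)

lemma code_le {m : ℕ} {j R : ℕ} {r : Fin m → ℤ} (hj : j ≤ R) (hr : ∀ i, (r i).natAbs ≤ R) :
    code j r + 1 ≤ (2 * R + 2) ^ (2 ^ (m + 1)) := by
  unfold code
  have h := encN_le (2 * R + 1) (j :: List.ofFn (fun i => ec (r i))) (by
    intro a ha
    rw [List.mem_cons] at ha
    rcases ha with rfl | ha
    · omega
    · rw [List.mem_ofFn] at ha
      obtain ⟨i, rfl⟩ := ha
      have h1 := ec_le (r i)
      have h2 := hr i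
      omega)
  rw [List.length_cons, List.length_ofFn] at h
  exact h

end codes

lemma traces_per {m : ℕ} (f g : Fin m → Polynomial ℤ) (r : Fin m → ℤ) (p : ℕ) {n n' : ℤ} (h : (p : ℤ) ∣ n - n') :
    Traces f g r p n ↔ Traces f g r p n' := by
  have key : ∀ F : Polynomial ℤ, ((F.eval n : ℤ) : ZMod p) = ((F.eval n' : ℤ) : ZMod p) := by
    intro F
    rw [← sub_eq_zero, ← Int.cast_sub, ZMod.intCast_zmod_eq_zero_iff_dvd]
    exact h.trans (Polynomial.sub_dvd_eval_sub n n' F)
  unfold Traces
  apply forall_congr'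
  intro i
  have h1 : GoodPrime ((f i).eval n) ((g i).eval n) p ↔ GoodPrime ((f i).eval n') ((g i).eval n') p := by
    unfold GoodPrime
    rw [← ZMod.intCast_zmod_eq_zero_iff_dvd, ← ZMod.intCast_zmod_eq_zero_iff_dvd]
    push_cast
    rw [key (f i), key (g i)]
  have h2 : pointCount ((f i).eval n) ((g i).eval n) p = pointCount ((f i).eval n') ((g i).eval n') p := by
    unfold pointCount
    rw [key (f i), key (g i)]
  rw [h1, h2]

lemma filter_pri (x : ℕ) (Q : ℕ → Prop) [DecidablePred (fun p => p.Prime ∧ Q p)] [DecidablePred Q] :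
    (range (x + 1)).filter (fun p => p.Prime ∧ Q p) = (pri x).filter Q := by
  ext p
  simp only [mem_filter, mem_range, mem_pri]
  constructor
  · rintro ⟨h1, h2, h3⟩
    exact ⟨⟨by omega, h2⟩, h3⟩
  · rintro ⟨⟨h1, h2⟩, h3⟩
    exact ⟨by omega, h2, h3⟩

/-- **Lang–Trotter counts for the fibres of several elliptic surfaces in sparse families given by digits.** Let `b ≥ 2`, `η > 0`
and `0 < δ ≤ 1 / 2`. There is `W` such that for all `κ ≠ 0` and `m`, all sufficiently large `X`, all `k ≥ 2` and all `c` the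
following holds for the families of integers `c + κ v` with `k` digits described by `Almost` (the rearrangements `v` of `k`
digits, the palindromes, the integers with independent pairs of mirror digits). Let `f_i`, `g_i` (`i < m`) be any
polynomials with integer coefficients and let `T_0, T_1, ...` be any pairwise disjoint sets of primes.

Almost all the members `n` of the families, up to a proportion of at most `2 X ^ (- δ / 2)`, have for ALL `x ≥ X` with
`x ^ W ≤ b ^ k`, ALL `j ≤ x ^ θ` and ALL integers `|r_i| ≤ x ^ θ`, `θ = δ / 2 ^ (m + 3)`: with `M` the sum over the primes `p ≤ x` in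
`T_j` of the proportion of the residues `t` modulo `p` such that the curves `y² = x³ + f_i(t) x + g_i(t)` have good reduction
and the traces `r_i` at `p`, and `M'` the same sum over `p ≤ 2 x`, the number of the primes `p ≤ x` in `T_j` at which the
curves `y² = x³ + f_i(n) x + g_i(n)` have good reduction and the traces `r_i` differs from `M` by at most
`(max 1 M') ^ (1 / 2) x ^ δ`. -/
theorem result (b : ℕ) (hb : 2 ≤ b) (η : ℝ) (hη : 0 < η) (δ : ℝ) (hδ : 0 < δ) (hδ1 : δ ≤ 1 / 2) : ∃ W : ℕ, 1 ≤ W ∧
    ∀ κ : ℤ, κ ≠ 0 → ∀ m : ℕ, ∃ X₀ : ℕ, ∀ X : ℕ, X₀ ≤ X → ∀ k : ℕ, 2 ≤ k → ∀ c : ℤ, ∀ f g : Fin m → Polynomial ℤ,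
    ∀ T : ℕ → Set ℕ, (∀ p j j', p ∈ T j → p ∈ T j' → j = j') →
    Almost b k κ c η (2 * (X : ℝ) ^ (-(δ / 2))) (fun n => ∀ x : ℕ, X ≤ x → x ^ W ≤ b ^ k →
      ∀ j : ℕ, (j : ℝ) ≤ (x : ℝ) ^ (δ / 2 ^ (m + 3)) → ∀ r : Fin m → ℤ, (∀ i, (|r i| : ℝ) ≤ (x : ℝ) ^ (δ / 2 ^ (m + 3))) →
        |(count f g (T j) r n x : ℝ) - model f g (T j) r x| ≤ √(max 1 (model f g (T j) r (2 * x))) * (x : ℝ) ^ δ) := by
  classical
  obtain ⟨W, hW, H⟩ := fine_many b hb η hη δ hδ hδ1
  refine ⟨W, hW, fun κ hκ m => ?_⟩
  obtain ⟨X₀, J⟩ := H κ hκ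
  obtain ⟨X₁, hX₁⟩ : ∃ X₁ : ℕ, ∀ x : ℕ, X₁ ≤ x → (4 : ℝ) ^ (2 ^ (m + 1)) ≤ (x : ℝ) ^ (δ / 4) := by
    have h1 := ((tendsto_rpow_atTop (show 0 < δ / 4 by positivity)).comp tendsto_natCast_atTop_atTop).eventually_ge_atTop
      ((4 : ℝ) ^ (2 ^ (m + 1)))
    obtain ⟨X₁, hX₁⟩ := Filter.eventually_atTop.1 h1
    exact ⟨X₁, hX₁⟩
  refine ⟨X₀ + X₁ + 1, fun X hX k hk c f g T hT => ?_⟩
  -- the indicator functions
  obtain ⟨G, hG⟩ : ∃ G : ℕ → ℕ → ℤ → ℝ, G = fun J p n =>
    if ∃ (j : ℕ) (r : Fin m → ℤ), code j r = J ∧ p ∈ T j ∧ Traces f g r p n then 1 else 0 := ⟨_, rfl⟩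
  have hGval : ∀ (j : ℕ) (r : Fin m → ℤ) (p : ℕ) (n : ℤ), G (code j r) p n = if p ∈ T j ∧ Traces f g r p n then 1 else 0 := by
    intro j r p n
    rw [hG]
    simp only
    congr 1
    rw [eq_iff_iff]
    constructor
    · rintro ⟨j', r', h, h1, h2⟩
      obtain ⟨rfl, rfl⟩ := code_inj h
      exact ⟨h1, h2⟩
    · rintro ⟨h1, h2⟩
      exact ⟨j, r, rfl, h1, h2⟩
  have h1 := J X (by omega) k hk c G (by
    intro J
    constructor
    · intro p hp n n' h
      rw [hG]
      simp only
      congr 1
      rw [eq_iff_iff]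
      apply exists_congr
      intro j
      apply exists_congr
      intro r
      rw [traces_per f g r p h]
    · intro p _ n
      rw [hG]
      simp only
      split_ifs <;> norm_num) (by
    intro p hp n M
    have h2 : ∑ J ∈ range M, (G J p n) ^ 2 ≤ 1 := by
      have e : ∀ J, (G J p n) ^ 2 = if ∃ (j : ℕ) (r : Fin m → ℤ), code j r = J ∧ p ∈ T j ∧ Traces f g r p n then 1 else 0 := by
        intro J
        rw [hG]
        simp only
        split_ifs <;> norm_num
      simp only [e]
      rw [sum_boole]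
      have h3 : ((range M).filter (fun J => ∃ (j : ℕ) (r : Fin m → ℤ), code j r = J ∧ p ∈ T j ∧ Traces f g r p n)).card ≤ 1 := by
        rw [card_le_one]
        intro J hJ J' hJ'
        obtain ⟨j, r, h4, h5, h6⟩ := (mem_filter.1 hJ).2
        obtain ⟨j', r', h4', h5', h6'⟩ := (mem_filter.1 hJ').2
        have h7 := hT p j j' h5 h5'
        have h8 : r = r' := by
          funext i
          rw [← (h6 i).2, ← (h6' i).2]
        rw [← h4, ← h4', h7, h8]
      exact_mod_cast h3
    have h3 : (0 : ℝ) ≤ Nat.log 2 p := Nat.cast_nonneg _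
    linarith)
  refine Almost.mono h1 ?_
  intro n hn x hXx hxW j hj r hr
  have hx1 : 1 ≤ x := by omega
  have hxr : (1 : ℝ) ≤ x := by exact_mod_cast hx1
  obtain ⟨θ, hθ⟩ : ∃ θ : ℝ, θ = δ / 2 ^ (m + 3) := ⟨_, rfl⟩
  rw [← hθ] at hj hr
  have hθ0 : 0 < θ := by rw [hθ]; positivity
  have hy1 : 1 ≤ (x : ℝ) ^ θ := Real.one_le_rpow hxr hθ0.le
  -- the size of the code
  have hcode : ((code j r : ℕ) : ℝ) ≤ (x : ℝ) ^ (δ / 2) := by
    obtain ⟨R, hR⟩ : ∃ R : ℕ, R = ⌊(x : ℝ) ^ θ⌋₊ := ⟨_, rfl⟩
    have hRle : (R : ℝ) ≤ (x : ℝ) ^ θ := by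
      rw [hR]
      exact Nat.floor_le (by positivity)
    have h2 : j ≤ R := by
      rw [hR]
      exact Nat.le_floor hj
    have h3 : ∀ i, (r i).natAbs ≤ R := by
      intro i
      rw [hR]
      apply Nat.le_floor
      have h4 := hr i
      rw [Nat.cast_natAbs]
      push_cast
      exact h4
    have h4 : ((code j r : ℕ) : ℝ) + 1 ≤ (2 * (R : ℝ) + 2) ^ (2 ^ (m + 1)) := by exact_mod_cast code_le h2 h3
    have h5 : (2 * (R : ℝ) + 2) ^ (2 ^ (m + 1)) ≤ (4 * (x : ℝ) ^ θ) ^ (2 ^ (m + 1)) := by
      apply pow_le_pow_left₀ (by positivity)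
      linarith
    have h6 : ((x : ℝ) ^ θ) ^ (2 ^ (m + 1)) = (x : ℝ) ^ (δ / 4) := by
      rw [← Real.rpow_natCast, ← Real.rpow_mul (by linarith), hθ]
      congr 1
      push_cast
      rw [pow_add (2 : ℝ) m 3, pow_add (2 : ℝ) m 1]
      field_simp
      norm_num
    rw [mul_pow, h6] at h5
    have h7 : (4 : ℝ) ^ (2 ^ (m + 1)) * (x : ℝ) ^ (δ / 4) ≤ (x : ℝ) ^ (δ / 4) * (x : ℝ) ^ (δ / 4) :=
      mul_le_mul_of_nonneg_right (hX₁ x (by omega)) (by positivity)
    have h8 : (x : ℝ) ^ (δ / 4) * (x : ℝ) ^ (δ / 4) = (x : ℝ) ^ (δ / 2) := by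
      rw [← Real.rpow_add (by linarith)]
      congr 1
      ring
    linarith
  have h2 := (hn x hXx hxW).2 (code j r) hcode
  have hmean : ∀ p, mean p (G (code j r) p) = if p ∈ T j then (((range p).filter (fun t : ℕ => Traces f g r p t)).card : ℝ) / p else 0 := by
    intro p
    unfold mean
    simp only [hGval]
    by_cases h : p ∈ T j
    · rw [if_pos h]
      simp only [h, true_and]
      rw [sum_boole]
    · rw [if_neg h]
      simp only [h, false_and, if_false]
      simp
  have hmodel : ∀ y : ℕ, ∑ p ∈ pri y, mean p (G (code j r) p) = model f g (T j) r y := by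
    intro y
    unfold model
    rw [filter_pri y (fun p => p ∈ T j), sum_filter]
    exact sum_congr rfl fun p _ => hmean p
  have hVs : Vs (G (code j r)) (2 * x) ≤ model f g (T j) r (2 * x) := by
    rw [← hmodel]
    unfold Vs
    apply sum_le_sum
    intro p _
    unfold mean
    apply le_of_eq
    congr 1
    apply sum_congr rfl
    intro t _
    show (G (code j r) p (t : ℤ)) ^ 2 = G (code j r) p (t : ℤ)
    rw [hGval]
    split_ifs <;> norm_num
  have hcount : ∑ p ∈ pri x, G (code j r) p n = (count f g (T j) r n x : ℝ) := by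
    unfold count
    rw [filter_pri x (fun p => p ∈ T j ∧ Traces f g r p n)]
    simp only [hGval]
    rw [sum_boole]
  rw [sum_sub_distrib, hcount, hmodel] at h2
  refine h2.trans ?_
  apply mul_le_mul_of_nonneg_right _ (by positivity)
  exact Real.sqrt_le_sqrt (max_le_max le_rfl hVs)

end Pool.Agent.Results.MP_d74fca_nt.DigitSurfaces
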