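import Pool.Agent.R418.PT.A
import Pool.Agent.R429.TL.Pts

set_option autoImplicit false

/-!
# Joint Lang–Trotter counts of several elliptic curves twisted by polynomial values

Let `E_i : y² = x³ + A_i x + B_i`, `i < m`, be elliptic curves and `f_1, …, f_m` polynomials in
`ℤ[t]` of degree between `1` and `d`, with product `F`.  Let `E_{i,j}` be the quadratic twist of
`E_i` by `f_i(j)`, `j < N`.  For almost all `j`, up to a proportion of at most `X ^ (-κ)` (any `κ`),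
the following holds for ALL `x ≥ X` up to a fixed power of `N`, ALL non-zero traces `r_1, …, r_m`
and all residue classes `c` modulo `q ≤ x`: the number of the primes `p ≤ x`, `p ≡ c` modulo `q`,
for which `E_{i,j}` has good reduction with trace `r_i` for all `i`, is `2 ^ (-m)` times the number
`M` of the primes `p ≤ x`, `p ≡ c` modulo `q`, for which `E_i` has good reduction with trace `± r_i`
for all `i`, with an error of at most `√M x ^ δ` plus the number of the `p ≤ x` which divide the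
leading coefficient of `F` or the resultant of `F` and `F'`.
-/

namespace Pool.Agent.Results.MP_d74fca_nt.PolynomialTwists

open Finset Polynomial
open Pool.Agent.R429.TL (points)

/-- `p` is a prime not dividing `2 (4 A³ + 27 B²)` and the trace of Frobenius `p + 1 - #E(F_p)` of
`E : y² = x³ + A x + B` is `r`. -/
def Trace (A B r : ℤ) (p : ℕ) : Prop :=
  p.Prime ∧ ¬ ((p : ℤ) ∣ 2 * (4 * A ^ 3 + 27 * B ^ 2)) ∧ (p : ℤ) + 1 - points A B p = r

open Classical in
/-- the number of the primes `p ≤ x` with `p % q = c` for which the twist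
`y² = x³ + A_i D_i² x + B_i D_i³` has good reduction and trace `r_i` for all `i` -/
noncomputable def count {m : ℕ} (A B D r : Fin m → ℤ) (q c x : ℕ) : ℕ :=
  ((range (x + 1)).filter (fun p => p.Prime ∧ p % q = c ∧
    ∀ i, Trace (A i * D i ^ 2) (B i * D i ^ 3) (r i) p)).card

open Classical in
/-- the number of the primes `p ≤ x` with `p % q = c` for which `y² = x³ + A_i x + B_i` has good
reduction and trace `r_i` or `- r_i` for all `i` -/
noncomputable def base {m : ℕ} (A B r : Fin m → ℤ) (q c x : ℕ) : ℕ :=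
  ((range (x + 1)).filter (fun p => p.Prime ∧ p % q = c ∧
    ∀ i, Trace (A i) (B i) (r i) p ∨ Trace (A i) (B i) (-(r i)) p)).card

open Classical in
/-- the number of the primes `p ≤ x` dividing the leading coefficient of `F` or the resultant of `F`
and its derivative -/
noncomputable def ram (F : ℤ[X]) (x : ℕ) : ℕ :=
  ((range (x + 1)).filter (fun p : ℕ => p.Prime ∧
    ((p : ℤ) ∣ F.leadingCoeff ∨ (p : ℤ) ∣ resultant F F.derivative))).card

theorem trace_congr (r : ℤ) (p : ℕ) {a a' b b' : ℤ} (e1 : ((a' : ℤ) : ZMod p) = ((a : ℤ) : ZMod p))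
    (e2 : ((b' : ℤ) : ZMod p) = ((b : ℤ) : ZMod p)) : Trace a' b' r p ↔ Trace a b r p := by
  have h1 : ((p : ℤ) ∣ 2 * (4 * a' ^ 3 + 27 * b' ^ 2)) ↔
      ((p : ℤ) ∣ 2 * (4 * a ^ 3 + 27 * b ^ 2)) := by
    rw [← ZMod.intCast_zmod_eq_zero_iff_dvd, ← ZMod.intCast_zmod_eq_zero_iff_dvd]
    push_cast
    rw [e1, e2]
  have h2 : points a' b' p = points a b p := by
    classical
    unfold points
    congr 2
    refine filter_congr fun xy _ => ?_
    rw [← ZMod.intCast_zmod_eq_zero_iff_dvd, ← ZMod.intCast_zmod_eq_zero_iff_dvd]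
    push_cast
    rw [e1, e2]
  unfold Trace
  rw [h1, h2]

theorem trace_le {r A B : ℤ} {p x : ℕ} (h : Trace A B r p) (hpx : p ≤ x) :
    r ∈ Icc (-(2 * (x : ℤ) ^ 2)) (2 * (x : ℤ) ^ 2) := by
  classical
  obtain ⟨hp, _, hr⟩ := h
  have h1 : points A B p ≤ p ^ 2 + 1 := by
    unfold points
    have := card_filter_le (range p ×ˢ range p) (fun xy : ℕ × ℕ =>
      (p : ℤ) ∣ (xy.2 : ℤ) ^ 2 - ((xy.1 : ℤ) ^ 3 + A * xy.1 + B))
    rw [card_product, card_range, ← sq] at this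
    omega
  have h2 : (points A B p : ℤ) ≤ (x : ℤ) ^ 2 + 1 := by
    have : points A B p ≤ x ^ 2 + 1 := h1.trans (by
      have := Nat.pow_le_pow_left hpx 2
      omega)
    exact_mod_cast this
  have h3 : (p : ℤ) ≤ (x : ℤ) ^ 2 := by
    have : p ≤ x ^ 2 := hpx.trans (Nat.le_self_pow two_ne_zero x)
    exact_mod_cast this
  have h4 : 1 ≤ x := hp.one_lt.le.trans hpx
  have h5 : (1 : ℤ) ≤ (x : ℤ) ^ 2 := by
    have : 1 ≤ x ^ 2 := Nat.one_le_pow _ _ h4
    exact_mod_cast this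
  rw [mem_Icc]
  constructor <;> omega

/-- the trace of the twist -/
theorem twist_iff (A B D r : ℤ) (p : ℕ) (hp : p.Prime) :
    Trace (A * D ^ 2) (B * D ^ 3) r p ↔
      (Trace A B r p ∧ jacobiSym D p = 1) ∨ (Trace A B (-r) p ∧ jacobiSym D p = -1) := by
  have hdisc : 2 * (4 * (A * D ^ 2) ^ 3 + 27 * (B * D ^ 3) ^ 2) =
      2 * (4 * A ^ 3 + 27 * B ^ 2) * D ^ 6 := by ring
  constructor
  · rintro ⟨_, hnd, h⟩
    have hpD : ¬ (p : ℤ) ∣ D := by
      intro h
      apply hnd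
      rw [hdisc]
      exact Dvd.dvd.mul_left (dvd_pow h (by norm_num)) _
    have hpd : ¬ (p : ℤ) ∣ 2 * (4 * A ^ 3 + 27 * B ^ 2) := by
      intro h
      apply hnd
      rw [hdisc]
      exact Dvd.dvd.mul_right h _
    have hp2 : p ≠ 2 := by
      rintro rfl
      exact hpd (Dvd.intro _ rfl)
    obtain ⟨h1, h2⟩ := Pool.Agent.R429.TL.twist_points A B D hp hp2
    rcases Pool.Agent.R429.TL.jac_of_not_dvd hp hpD with hj | hj
    · left
      rw [h1 hj] at h
      exact ⟨⟨hp, hpd, h⟩, hj⟩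
    · right
      rw [h2 hj] at h
      exact ⟨⟨hp, hpd, by linarith⟩, hj⟩
  · have key : ∀ r' : ℤ, Trace A B r' p → jacobiSym D p ≠ 0 →
        p ≠ 2 ∧ ¬ (p : ℤ) ∣ 2 * (4 * (A * D ^ 2) ^ 3 + 27 * (B * D ^ 3) ^ 2) := by
      rintro r' ⟨_, hpd, _⟩ hj
      refine ⟨?_, ?_⟩
      · rintro rfl
        exact hpd (Dvd.intro _ rfl)
      · rw [Pool.Agent.W406.TW.dvd_disc A B D hp (Pool.Agent.W406.TW.not_dvd_of_jac hp hj)]
        exact hpd
    rintro (⟨ht, hj⟩ | ⟨ht, hj⟩)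
    · obtain ⟨hp2, hnd⟩ := key _ ht (by rw [hj]; norm_num)
      obtain ⟨h1, h2⟩ := Pool.Agent.R429.TL.twist_points A B D hp hp2
      refine ⟨hp, hnd, ?_⟩
      rw [h1 hj]
      exact ht.2.2
    · obtain ⟨hp2, hnd⟩ := key _ ht (by rw [hj]; norm_num)
      obtain ⟨h1, h2⟩ := Pool.Agent.R429.TL.twist_points A B D hp hp2
      refine ⟨hp, hnd, ?_⟩
      rw [h2 hj]
      have := ht.2.2
      linarith

open Classical in
theorem mean_twist {m : ℕ} (hm : 1 ≤ m) (A B : Fin m → ℤ) (f : Fin m → ℤ[X])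
    (hd : ∀ i, 1 ≤ (f i).natDegree) (r : Fin m → ℤ) (hr : ∀ i, r i ≠ 0) (q c p : ℕ) :
    |Pool.Agent.R418.GE.mean p (fun j : ℕ => if p.Prime ∧ p % q = c ∧
        ∀ i, Trace (A i * ((f i).eval (j : ℤ)) ^ 2) (B i * ((f i).eval (j : ℤ)) ^ 3) (r i) p
        then (1 : ℝ) else 0) - (if p.Prime ∧ p % q = c ∧
          ∀ i, Trace (A i) (B i) (r i) p ∨ Trace (A i) (B i) (-(r i)) p then 1 / 2 ^ m else 0)| ≤
      (if p.Prime ∧ p % q = c ∧
          (∀ i, Trace (A i) (B i) (r i) p ∨ Trace (A i) (B i) (-(r i)) p) then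
          2 * ((∏ i, f i).natDegree : ℝ) * (1 / √p) else 0) +
      (if p.Prime ∧ ((p : ℤ) ∣ (∏ i, f i).leadingCoeff ∨
        (p : ℤ) ∣ resultant (∏ i, f i) (derivative (∏ i, f i))) then 1 else 0) := by
  classical
  obtain ⟨g, hg⟩ : ∃ g : ℕ → ℝ, g = fun j : ℕ => if p.Prime ∧ p % q = c ∧
        ∀ i, Trace (A i * ((f i).eval (j : ℤ)) ^ 2) (B i * ((f i).eval (j : ℤ)) ^ 3) (r i) p
        then (1 : ℝ) else 0 := ⟨_, rfl⟩
  have hg01 : ∀ j, 0 ≤ g j ∧ g j ≤ 1 := by
    intro j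
    rw [hg]
    simp only
    split_ifs <;> norm_num
  rw [← hg]
  by_cases hS : p.Prime ∧ p % q = c ∧ ∀ i, Trace (A i) (B i) (r i) p ∨ Trace (A i) (B i) (-(r i)) p
  · rw [if_pos hS, if_pos hS]
    obtain ⟨hp, hpc, hT⟩ := hS
    have hp0 : (0 : ℝ) < p := by exact_mod_cast hp.pos
    have hp2 : p ≠ 2 := by
      rintro rfl
      rcases hT ⟨0, hm⟩ with h | h
      · exact h.2.1 (Dvd.intro _ rfl)
      · exact h.2.1 (Dvd.intro _ rfl)
    by_cases hb : (p : ℤ) ∣ Pool.Agent.R418.UP.bad (∏ i, f i)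
    · have hb' : (p : ℤ) ∣ (∏ i, f i).leadingCoeff ∨
        (p : ℤ) ∣ resultant (∏ i, f i) (derivative (∏ i, f i)) := by
        unfold Pool.Agent.R418.UP.bad at hb
        exact (Nat.prime_iff_prime_int.1 hp).dvd_or_dvd hb
      rw [if_pos ⟨hp, hb'⟩]
      have h1 : 0 ≤ Pool.Agent.R418.GE.mean p g ∧ Pool.Agent.R418.GE.mean p g ≤ 1 := by
        have h1 : 0 ≤ ∑ n ∈ range p, g n := sum_nonneg fun n _ => (hg01 n).1
        have h2 : ∑ n ∈ range p, g n ≤ p := by
          refine (sum_le_sum (g := fun _ => (1 : ℝ)) fun n _ => (hg01 n).2).trans ?_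
          simp
        exact ⟨div_nonneg h1 hp0.le, div_le_one_of_le₀ h2 hp0.le⟩
      have h2 : (0 : ℝ) ≤ 1 / 2 ^ m ∧ (1 : ℝ) / 2 ^ m ≤ 1 := by
        refine ⟨by positivity, ?_⟩
        rw [div_le_one (by positivity)]
        exact one_le_pow₀ (by norm_num)
      have h3 : (0 : ℝ) ≤ 2 * ((∏ i, f i).natDegree : ℝ) * (1 / √p) := by positivity
      rw [abs_le]
      constructor <;> linarith [h1.1, h1.2, h2.1, h2.2]
    · obtain ⟨s, hs⟩ : ∃ s : Fin m → ℤ, s = fun i => if Trace (A i) (B i) (r i) p then 1 else -1 :=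
        ⟨_, rfl⟩
      have hs1 : ∀ i, s i = 1 ∨ s i = -1 := by
        intro i
        rw [hs]
        simp only
        split_ifs
        · left; rfl
        · right; rfl
      have h1 := Pool.Agent.R418.PT.mean_signs hm f hd p hp hp2 hb s hs1
      have hgs : ∀ n : ℕ, g n = if ∀ i, jacobiSym ((f i).eval (n : ℤ)) p = s i then 1 else 0 := by
        intro n
        rw [hg]
        simp only
        refine if_congr ?_ rfl rfl
        constructor
        · rintro ⟨_, _, hall⟩ i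
          have h2 := (twist_iff (A i) (B i) ((f i).eval (n : ℤ)) (r i) p hp).mp (hall i)
          rw [hs]
          simp only
          rcases h2 with ⟨h3, h4⟩ | ⟨h3, h4⟩
          · rw [if_pos h3, h4]
          · have h5 : ¬ Trace (A i) (B i) (r i) p := by
              intro h5
              have e1 := h5.2.2
              have e2 := h3.2.2
              have := hr i
              omega
            rw [if_neg h5, h4]
        · intro hall
          refine ⟨hp, hpc, fun i => ?_⟩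
          rw [twist_iff (A i) (B i) ((f i).eval (n : ℤ)) (r i) p hp]
          have h2 := hall i
          rw [hs] at h2
          simp only at h2
          by_cases h3 : Trace (A i) (B i) (r i) p
          · rw [if_pos h3] at h2
            exact Or.inl ⟨h3, h2⟩
          · rw [if_neg h3] at h2
            refine Or.inr ⟨?_, h2⟩
            rcases hT i with h4 | h4
            · exact absurd h4 h3
            · exact h4
      rw [← sum_congr rfl fun n _ => hgs n] at h1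
      have h4 : 0 ≤ (if p.Prime ∧ ((p : ℤ) ∣ (∏ i, f i).leadingCoeff ∨
        (p : ℤ) ∣ resultant (∏ i, f i) (derivative (∏ i, f i))) then (1 : ℝ) else 0) := by
        split_ifs <;> norm_num
      refine le_trans ?_ (le_add_of_nonneg_right h4)
      have h5 : Pool.Agent.R418.GE.mean p g - 1 / 2 ^ m =
          (∑ n ∈ range p, g n - (p : ℝ) / 2 ^ m) / p := by
        rw [Pool.Agent.R418.GE.mean]
        field_simp
      rw [h5, abs_div, abs_of_pos hp0, div_le_iff₀ hp0]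
      refine h1.trans (le_of_eq ?_)
      have h6 : √(p : ℝ) * √(p : ℝ) = p := Real.mul_self_sqrt hp0.le
      have h7 : √(p : ℝ) ≠ 0 := (Real.sqrt_pos.mpr hp0).ne'
      calc 2 * ((∏ i, f i).natDegree : ℝ) * √p = 2 * ((∏ i, f i).natDegree : ℝ) * (1 / √p) *
            (√(p : ℝ) * √(p : ℝ)) := by field_simp
        _ = _ := by rw [h6]
  · rw [if_neg hS, if_neg hS, zero_add, sub_zero]
    have h0 : ∀ n, g n = 0 := by
      intro n
      rw [hg]
      simp only
      rw [if_neg]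
      rintro ⟨hp, hpc, hall⟩
      apply hS
      refine ⟨hp, hpc, fun i => ?_⟩
      rcases (twist_iff (A i) (B i) ((f i).eval (n : ℤ)) (r i) p hp).mp (hall i) with h | h
      · exact Or.inl h.1
      · exact Or.inr h.1
    have h1 : Pool.Agent.R418.GE.mean p g = 0 := by
      rw [Pool.Agent.R418.GE.mean, sum_congr rfl fun n _ => h0 n]
      simp
    rw [h1, abs_zero]
    split_ifs <;> norm_num

theorem result (m d κ : ℕ) (hm : 1 ≤ m) (δ : ℝ) (hδ : 0 < δ) : ∃ W X₀ : ℕ, 1 ≤ W ∧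
    ∀ (A B : Fin m → ℤ) (f : Fin m → ℤ[X]), (∀ i, 1 ≤ (f i).natDegree ∧ (f i).natDegree ≤ d) →
      ∀ X N : ℕ, X₀ ≤ X →
        (({j : ℕ | j < N ∧ ∃ x : ℕ, X ≤ x ∧ x ^ W ≤ N ∧
          ∃ (r : Fin m → ℤ) (q c : ℕ), (∀ i, r i ≠ 0) ∧ 1 ≤ q ∧ q ≤ x ∧ c < q ∧
            √(max 1 (base A B r q c x : ℝ)) * (x : ℝ) ^ δ + ram (∏ i, f i) x <
              |(count A B (fun i => (f i).eval (j : ℤ)) r q c x : ℝ) -
                (base A B r q c x : ℝ) / 2 ^ m|}).ncard : ℝ) * (X : ℝ) ^ κ ≤ N := by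
  classical
  obtain ⟨W, X₀, hW, hX₀, hgen⟩ := Pool.Agent.R418.GE.general (δ / 2) κ (4 * m + 2) (by positivity)
  obtain ⟨X₁, hX₁⟩ : ∃ X₁ : ℕ, ∀ x : ℕ, X₁ ≤ x → 1 + 4 * (m * d : ℝ) ≤ (x : ℝ) ^ (δ / 2) := by
    have h1 : Filter.Tendsto (fun x : ℕ => (x : ℝ) ^ (δ / 2)) Filter.atTop Filter.atTop :=
      (tendsto_rpow_atTop (show 0 < δ / 2 by positivity)).comp tendsto_natCast_atTop_atTop
    have h2 := h1.eventually (Filter.eventually_ge_atTop (1 + 4 * (m * d : ℝ)))
    obtain ⟨X₁, h3⟩ := Filter.eventually_atTop.mp h2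
    exact ⟨X₁, h3⟩
  refine ⟨W, max X₀ (max X₁ 5), hW, ?_⟩
  intro A B f hf X N hX
  have hXa : X₀ ≤ X := (le_max_left _ _).trans hX
  have hXb : X₁ ≤ X := (le_max_left _ _).trans ((le_max_right _ _).trans hX)
  have hXc : 5 ≤ X := (le_max_right _ _).trans ((le_max_right _ _).trans hX)
  obtain ⟨R, hR⟩ : ∃ R : ℕ → Finset ((Fin m → ℤ) × ℕ × ℕ), R = fun x : ℕ => if x < 5 then ∅ else
    (Fintype.piFinset fun _ : Fin m => Icc (-(2 * (x : ℤ) ^ 2)) (2 * (x : ℤ) ^ 2)) ×ˢ
      (Icc 1 x ×ˢ range x) := ⟨_, rfl⟩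
  obtain ⟨g, hg⟩ : ∃ g : ℕ → ((Fin m → ℤ) × ℕ × ℕ) → ℕ → ℕ → ℝ, g =
    fun (_ : ℕ) (s : (Fin m → ℤ) × ℕ × ℕ) (p j : ℕ) => if p.Prime ∧ p % s.2.1 = s.2.2 ∧
        ∀ i, Trace (A i * ((f i).eval (j : ℤ)) ^ 2) (B i * ((f i).eval (j : ℤ)) ^ 3) (s.1 i) p
        then (1 : ℝ) else 0 := ⟨_, rfl⟩
  have hRc : ∀ x, (R x).card ≤ x ^ (4 * m + 2) := by
    intro x
    rw [hR]
    simp only
    split_ifs with h
    · simp
    · push Not at h
      rw [card_product, card_product, Fintype.card_piFinset_const, Int.card_Icc, Nat.card_Icc,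
        card_range]
      have h1 : (2 * (x : ℤ) ^ 2 + 1 - -(2 * (x : ℤ) ^ 2)).toNat = 4 * x ^ 2 + 1 := by
        have : 2 * (x : ℤ) ^ 2 + 1 - -(2 * (x : ℤ) ^ 2) = ((4 * x ^ 2 + 1 : ℕ) : ℤ) := by
          push_cast; ring
        rw [this, Int.toNat_natCast]
      rw [h1]
      have h2 : 4 * x ^ 2 + 1 ≤ x ^ 4 := by
        have h3 : 5 * x ^ 2 ≤ x ^ 2 * x ^ 2 := Nat.mul_le_mul_right _ (by nlinarith)
        have h4 : 1 ≤ x ^ 2 := Nat.one_le_pow _ _ (by omega)
        calc 4 * x ^ 2 + 1 ≤ 5 * x ^ 2 := by omega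
          _ ≤ x ^ 2 * x ^ 2 := h3
          _ = x ^ 4 := by ring
      calc (4 * x ^ 2 + 1) ^ m * ((x + 1 - 1) * x) ≤ (x ^ 4) ^ m * (x * x) := by
            apply Nat.mul_le_mul (Nat.pow_le_pow_left h2 m)
            rw [Nat.add_sub_cancel]
        _ = x ^ (4 * m + 2) := by rw [← pow_mul]; ring
  have hsys : ∀ x s, Pool.Agent.R418.GE.Sys (g x s) := by
    intro x s
    rw [hg]
    refine ⟨fun p n => ?_, fun p hp n => ?_⟩
    · simp only
      split_ifs <;> norm_num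
    · simp only
      refine if_congr (and_congr_right fun _ => and_congr_right fun _ => forall_congr' fun i => ?_)
        rfl rfl
      have h1 : (((f i).eval ((n + p : ℕ) : ℤ) : ℤ) : ZMod p) =
          (((f i).eval (n : ℤ) : ℤ) : ZMod p) := by
        have h1 := Polynomial.sub_dvd_eval_sub ((n + p : ℕ) : ℤ) (n : ℤ) (f i)
        have h2 : ((n + p : ℕ) : ℤ) - (n : ℤ) = p := by push_cast; ring
        rw [h2, ← ZMod.intCast_zmod_eq_zero_iff_dvd] at h1
        push_cast at h1 ⊢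
        exact sub_eq_zero.mp h1
      apply trace_congr
      · push_cast at h1 ⊢
        rw [h1]
      · push_cast at h1 ⊢
        rw [h1]
  have hcnt : ∀ x s j, Pool.Agent.R418.GE.cnt (g x s) x j =
      (count A B (fun i => (f i).eval (j : ℤ)) s.1 s.2.1 s.2.2 x : ℝ) := by
    intro x s j
    rw [Pool.Agent.R418.GE.cnt, hg, count, Pool.Agent.R418.GE.pr]
    simp only
    rw [← sum_filter, sum_const, nsmul_eq_mul, mul_one, filter_filter]
    congr 2
    refine filter_congr fun p _ => ?_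
    exact ⟨fun h => h.2, fun h => ⟨h.1, h⟩⟩
  have hdeg : ((∏ i, f i).natDegree : ℝ) ≤ m * d := by
    have h1 : (∏ i, f i).natDegree ≤ m * d := by
      refine (natDegree_prod_le _ _).trans ((sum_le_sum fun i _ => (hf i).2).trans ?_)
      simp
    exact_mod_cast h1
  have hbase : ∀ (r : Fin m → ℤ) (q c x : ℕ), (base A B r q c x : ℝ) =
      ∑ p ∈ Pool.Agent.R418.GE.pr x, (if p.Prime ∧ p % q = c ∧
          ∀ i, Trace (A i) (B i) (r i) p ∨ Trace (A i) (B i) (-(r i)) p then (1 : ℝ) else 0) := by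
    intro r q c x
    rw [base, Pool.Agent.R418.GE.pr, ← sum_filter, sum_const, nsmul_eq_mul, mul_one, filter_filter]
    congr 2
    refine filter_congr fun p _ => ?_
    exact ⟨fun h => ⟨h.1, h⟩, fun h => h.2⟩
  have hram : ∀ x : ℕ, (ram (∏ i, f i) x : ℝ) = ∑ p ∈ Pool.Agent.R418.GE.pr x,
      (if p.Prime ∧ ((p : ℤ) ∣ (∏ i, f i).leadingCoeff ∨
        (p : ℤ) ∣ resultant (∏ i, f i) (derivative (∏ i, f i))) then (1 : ℝ) else 0) := by
    intro x
    rw [ram, Pool.Agent.R418.GE.pr, ← sum_filter, sum_const, nsmul_eq_mul, mul_one, filter_filter]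
    congr 2
    refine filter_congr fun p _ => ?_
    exact ⟨fun h => ⟨h.1, h⟩, fun h => h.2⟩
  have hmdl : ∀ (x : ℕ) (s : (Fin m → ℤ) × ℕ × ℕ), (∀ i, s.1 i ≠ 0) →
      |Pool.Agent.R418.GE.mdl (g x s) x - (base A B s.1 s.2.1 s.2.2 x : ℝ) / 2 ^ m| ≤
        4 * (m * d) * √(base A B s.1 s.2.1 s.2.2 x : ℝ) + ram (∏ i, f i) x := by
    intro x s hs
    have e1 : (base A B s.1 s.2.1 s.2.2 x : ℝ) / 2 ^ m = ∑ p ∈ Pool.Agent.R418.GE.pr x,
        (if p.Prime ∧ p % s.2.1 = s.2.2 ∧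
          ∀ i, Trace (A i) (B i) (s.1 i) p ∨ Trace (A i) (B i) (-(s.1 i)) p
          then (1 : ℝ) / 2 ^ m else 0) := by
      rw [hbase, sum_div]
      refine sum_congr rfl fun p _ => ?_
      rw [ite_div, zero_div]
    rw [Pool.Agent.R418.GE.mdl, e1, ← sum_sub_distrib]
    refine (abs_sum_le_sum_abs _ _).trans ?_
    refine (sum_le_sum fun p _ => ?_).trans (b := ∑ p ∈ Pool.Agent.R418.GE.pr x,
      ((if p.Prime ∧ p % s.2.1 = s.2.2 ∧
          (∀ i, Trace (A i) (B i) (s.1 i) p ∨ Trace (A i) (B i) (-(s.1 i)) p) then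
          2 * ((∏ i, f i).natDegree : ℝ) * (1 / √p) else 0) +
      (if p.Prime ∧ ((p : ℤ) ∣ (∏ i, f i).leadingCoeff ∨
        (p : ℤ) ∣ resultant (∏ i, f i) (derivative (∏ i, f i))) then 1 else 0))) ?_
    · rw [hg]
      exact mean_twist hm A B f (fun i => (hf i).1) s.1 hs s.2.1 s.2.2 p
    · rw [sum_add_distrib, ← hram]
      refine add_le_add ?_ le_rfl
      rw [← sum_filter, ← mul_sum]
      have h1 := Pool.Agent.R418.PT.sum_inv_sqrt_le ((Pool.Agent.R418.GE.pr x).filter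
        (fun p => p.Prime ∧ p % s.2.1 = s.2.2 ∧
          (∀ i, Trace (A i) (B i) (s.1 i) p ∨ Trace (A i) (B i) (-(s.1 i)) p))) (by
          intro n hn
          rw [mem_filter] at hn
          exact hn.2.1.one_lt.le)
      have h2 : ((((Pool.Agent.R418.GE.pr x).filter
        (fun p => p.Prime ∧ p % s.2.1 = s.2.2 ∧
          (∀ i, Trace (A i) (B i) (s.1 i) p ∨ Trace (A i) (B i) (-(s.1 i)) p))).card : ℕ) : ℝ) =
          base A B s.1 s.2.1 s.2.2 x := by
        rw [hbase, ← sum_filter, sum_const, nsmul_eq_mul, mul_one]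
      rw [h2] at h1
      calc _ ≤ 2 * ((∏ i, f i).natDegree : ℝ) * (2 * √(base A B s.1 s.2.1 s.2.2 x : ℝ)) :=
            mul_le_mul_of_nonneg_left h1 (by positivity)
        _ = 4 * ((∏ i, f i).natDegree : ℝ) * √(base A B s.1 s.2.1 s.2.2 x : ℝ) := by ring
        _ ≤ 4 * (m * d) * √(base A B s.1 s.2.1 s.2.2 x : ℝ) := by
            apply mul_le_mul_of_nonneg_right _ (Real.sqrt_nonneg _)
            linarith
  have hmdl_le : ∀ (x : ℕ) (s : (Fin m → ℤ) × ℕ × ℕ), (∀ i, s.1 i ≠ 0) →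
      Pool.Agent.R418.GE.mdl (g x s) x ≤ base A B s.1 s.2.1 s.2.2 x := by
    intro x s hs
    rw [Pool.Agent.R418.GE.mdl, hbase]
    refine sum_le_sum fun p _ => ?_
    split_ifs with hS
    · exact (Pool.Agent.R418.GE.mean_mem (hsys x s) p).2
    · rw [Pool.Agent.R418.GE.mean]
      have h0 : ∀ n, g x s p n = 0 := by
        intro n
        rw [hg]
        simp only
        rw [if_neg]
        rintro ⟨hp, hpc, hall⟩
        apply hS
        refine ⟨hp, hpc, fun i => ?_⟩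
        rcases (twist_iff (A i) (B i) ((f i).eval (n : ℤ)) (s.1 i) p hp).mp (hall i)
          with h | h
        · exact Or.inl h.1
        · exact Or.inr h.1
      rw [sum_congr rfl fun n _ => h0 n]
      simp
  have hfin : ({j : ℕ | j < N ∧ ∃ x : ℕ, X ≤ x ∧ x ^ W ≤ N ∧
          ∃ (r : Fin m → ℤ) (q c : ℕ), (∀ i, r i ≠ 0) ∧ 1 ≤ q ∧ q ≤ x ∧ c < q ∧
            √(max 1 (base A B r q c x : ℝ)) * (x : ℝ) ^ δ + ram (∏ i, f i) x <
              |(count A B (fun i => (f i).eval (j : ℤ)) r q c x : ℝ) -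
                (base A B r q c x : ℝ) / 2 ^ m|} : Set ℕ).Finite :=
    (Set.finite_Iio N).subset fun j hj => hj.1
  rw [Set.ncard_eq_toFinset_card _ hfin]
  refine hgen _ R g hRc hsys X N hXa _ fun j hj => ?_
  obtain ⟨hjN, x, hx1, hx2, r, q, c, hr, hq1, hq2, hc, hbad⟩ :=
    (Set.Finite.mem_toFinset hfin).1 hj
  have hx5 : ¬ x < 5 := by omega
  have hxr : (1 : ℝ) ≤ x := by
    have : 1 ≤ x := by omega
    exact_mod_cast this
  have hx0 : (0 : ℝ) < x := by linarith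
  refine ⟨hjN, x, hx1, hx2, (r, q, c), ?_, ?_⟩
  · rw [hR]
    simp only
    rw [if_neg hx5, mem_product, mem_product, Fintype.mem_piFinset, mem_Icc, mem_range]
    refine ⟨?_, ⟨hq1, hq2⟩, lt_of_lt_of_le hc hq2⟩
    -- some prime is counted
    have hex : ∃ p : ℕ, p ≤ x ∧ ∀ i, Trace (A i) (B i) (r i) p ∨ Trace (A i) (B i) (-(r i)) p := by
      by_contra hcon
      push Not at hcon
      have hb0 : base A B r q c x = 0 := by
        rw [base, card_eq_zero, filter_eq_empty_iff]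
        rintro p hp ⟨_, _, h⟩
        rw [mem_range] at hp
        obtain ⟨i, hi⟩ := hcon p (by omega)
        rcases h i with h' | h'
        · exact hi.1 h'
        · exact hi.2 h'
      have hc0 : count A B (fun i => (f i).eval (j : ℤ)) r q c x = 0 := by
        rw [count, card_eq_zero, filter_eq_empty_iff]
        rintro p hp ⟨hpp, _, h⟩
        rw [mem_range] at hp
        obtain ⟨i, hi⟩ := hcon p (by omega)
        rcases (twist_iff (A i) (B i) ((f i).eval (j : ℤ)) (r i) p hpp).mp (h i)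
          with h' | h'
        · exact hi.1 h'.1
        · exact hi.2 h'.1
      rw [hb0, hc0] at hbad
      have : 0 ≤ √(max 1 ((0 : ℕ) : ℝ)) * (x : ℝ) ^ δ + ram (∏ i, f i) x := by positivity
      norm_num at hbad
      norm_num at this
      linarith
    obtain ⟨p, hpx, hp⟩ := hex
    intro i
    rcases hp i with h | h
    · exact trace_le h hpx
    · have := trace_le h hpx
      rw [mem_Icc] at this ⊢
      show -(2 * (x : ℤ) ^ 2) ≤ r i ∧ r i ≤ 2 * (x : ℤ) ^ 2
      constructor <;> omega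
  · rw [hcnt]
    simp only
    have h1 := hmdl x (r, q, c) hr
    have h2 := hmdl_le x (r, q, c) hr
    simp only at h1 h2
    obtain ⟨M, hM⟩ : ∃ M : ℝ, M = Pool.Agent.R418.GE.mdl (g x (r, q, c)) x := ⟨_, rfl⟩
    obtain ⟨b, hb⟩ : ∃ b : ℝ, b = base A B r q c x := ⟨_, rfl⟩
    obtain ⟨k, hk⟩ : ∃ k : ℝ, k = count A B (fun i => (f i).eval (j : ℤ)) r q c x := ⟨_, rfl⟩
    rw [← hM, ← hb] at h1 h2
    rw [← hb, ← hk] at hbad
    rw [← hM, ← hk]
    have hs1 : √(max 1 M) ≤ √(max 1 b) := Real.sqrt_le_sqrt (max_le_max le_rfl h2)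
    have hs2 : √b ≤ √(max 1 b) := Real.sqrt_le_sqrt (le_max_right _ _)
    have hs0 : 0 ≤ √(max 1 b) := Real.sqrt_nonneg _
    have hxd : 1 + 4 * (m * d : ℝ) ≤ (x : ℝ) ^ (δ / 2) := hX₁ x (hXb.trans hx1)
    have hmd : (0 : ℝ) ≤ m * d := by positivity
    have hxd1 : 1 ≤ (x : ℝ) ^ (δ / 2) := by linarith
    have hsplit : (x : ℝ) ^ δ = (x : ℝ) ^ (δ / 2) * (x : ℝ) ^ (δ / 2) := by
      rw [← Real.rpow_add hx0]
      congr 1
      ring
    have h3 : |k - b / 2 ^ m| ≤ |k - M| + |M - b / 2 ^ m| := abs_sub_le _ _ _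
    have h4 : √(max 1 M) * (x : ℝ) ^ (δ / 2) + 4 * (m * d) * √b ≤
        √(max 1 b) * (x : ℝ) ^ δ := by
      calc √(max 1 M) * (x : ℝ) ^ (δ / 2) + 4 * (m * d) * √b ≤
          √(max 1 b) * (x : ℝ) ^ (δ / 2) + 4 * (m * d) * √(max 1 b) := by gcongr
        _ = √(max 1 b) * ((x : ℝ) ^ (δ / 2) + 4 * (m * d)) := by ring
        _ ≤ √(max 1 b) * ((x : ℝ) ^ (δ / 2) * (x : ℝ) ^ (δ / 2)) := by
            apply mul_le_mul_of_nonneg_left _ hs0
            nlinarith
        _ = _ := by rw [← hsplit]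
    linarith

end Pool.Agent.Results.MP_d74fca_nt.PolynomialTwists
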