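import Mathlib
import Pool.Agent.R429.TL.Pts

/-!
# Primes with a fixed Frobenius trace in families of quadratic twists: a tiny proportion of the twists decides

Nothing is used besides Mathlib in the statement, except the number of the points `Pool.Agent.R429.TL.points`.
-/

set_option autoImplicit false

namespace Pool.Agent.Results.MP_d74fca_nt.TwistDichotomy

open Finset Filter Pool.Agent.R429.TL Topology

noncomputable section

open Classical in
/-- The number of the primes `p ≤ x` not dividing `2 (4 A ^ 3 + 27 B ^ 2)` for which the trace of Frobenius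
`p + 1 - #E(F_p)` of `E : Y ^ 2 = X ^ 3 + A X + B` is `r`. -/
def piE (A B r : ℤ) (x : ℕ) : ℕ :=
  ((range (x + 1)).filter (fun p : ℕ => p.Prime ∧ ¬ ((p : ℤ) ∣ 2 * (4 * A ^ 3 + 27 * B ^ 2)) ∧ (p : ℤ) + 1 - points A B p = r)).card

/-- The ratio `π_{E_D, r}(x) log x / √x` for the quadratic twist `E_D : Y ^ 2 = X ^ 3 + A D ^ 2 X + B D ^ 3`. -/
def ratio (A B r D : ℤ) (x : ℕ) : ℝ := (piE (A * D ^ 2) (B * D ^ 3) r x : ℝ) / (√x / Real.log x)

/-- The mean of `π_{E, r}(x) log x / √x` and `π_{E, -r}(x) log x / √x`. -/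
def mean (A B r : ℤ) (x : ℕ) : ℝ := ((piE A B r x : ℝ) + piE A B (-r) x) / (2 * (√x / Real.log x))

/-- For every `η > 0` there are `C` and `c > 0` such that for all large `N` and all `D`, `0 < |D| ≤ N`, up to
`N ^ (1 - c)` exceptions the ratio is in `[K - η, K + η]` for all `x` between `(log N) ^ C` and `N ^ c`. -/
def Range (A B r : ℤ) (K : ℝ) : Prop :=
  ∀ η : ℝ, 0 < η → ∃ C c : ℝ, 0 < c ∧ ∀ᶠ N : ℕ in atTop,
    (({D : ℤ | D ≠ 0 ∧ |D| ≤ N ∧ ∃ x : ℕ, (Real.log N) ^ C ≤ x ∧ (x : ℝ) ≤ (N : ℝ) ^ c ∧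
      ¬ |ratio A B r D x - K| ≤ η}.ncard : ℕ) : ℝ) ≤ (N : ℝ) ^ (1 - c)

/-- For every `η > 0` and `a`, for all large `x` and then all large `N`, the ratio at `x` is in `[K - η, K + η]` for all but at
most `x ^ (-a) N` of the `D` with `0 < |D| ≤ N`. -/
def Most (A B r : ℤ) (K : ℝ) : Prop :=
  ∀ η : ℝ, 0 < η → ∀ a : ℝ, ∀ᶠ x : ℕ in atTop, ∀ᶠ N : ℕ in atTop,
    (({D : ℤ | D ≠ 0 ∧ |D| ≤ N ∧ ¬ |ratio A B r D x - K| ≤ η}.ncard : ℕ) : ℝ) ≤ (x : ℝ) ^ (-a) * N

/-- For every `η > 0` there is an `a` such that for all large `x` there are arbitrarily large `N`, for which the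
ratio at `x` is in `[K - η, K + η]` for at least `x ^ (-a) N` of the `D` with `0 < |D| ≤ N`. -/
def Some (A B r : ℤ) (K : ℝ) : Prop :=
  ∀ η : ℝ, 0 < η → ∃ a : ℝ, ∀ᶠ x : ℕ in atTop, ∃ᶠ N : ℕ in atTop, (x : ℝ) ^ (-a) * N ≤
    (({D : ℤ | D ≠ 0 ∧ |D| ≤ N ∧ |ratio A B r D x - K| ≤ η}.ncard : ℕ) : ℝ)

open Pool.Agent.W406.TW (ap ap_twist dvd_disc not_dvd_of_jac)

lemma piE_twist (A B r D : ℤ) (x : ℕ) :
    piE (A * D ^ 2) (B * D ^ 3) r x = cnt (PG A B x) (fun p => (p : ℤ) + 1 - points A B p = r)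
      (fun p => (p : ℤ) + 1 - points A B p = -r) D := by
  unfold piE cnt PG
  refine congrArg card (Finset.ext fun p => ?_)
  simp only [mem_filter, and_assoc]
  apply and_congr_right
  intro _
  constructor
  · rintro ⟨hp, hnd, h⟩
    have hdisc : 2 * (4 * (A * D ^ 2) ^ 3 + 27 * (B * D ^ 3) ^ 2) = 2 * (4 * A ^ 3 + 27 * B ^ 2) * D ^ 6 := by ring
    have hpD : ¬ (p : ℤ) ∣ D := by
      intro h
      apply hnd
      rw [hdisc]
      exact Dvd.dvd.mul_left (dvd_pow h (by norm_num)) _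
    have hpd : ¬ (p : ℤ) ∣ 2 * (4 * A ^ 3 + 27 * B ^ 2) := by
      intro h
      apply hnd
      rw [hdisc]
      exact Dvd.dvd.mul_right h _
    have hp2 : p ≠ 2 := by
      rintro rfl
      exact hpd (Dvd.intro _ rfl)
    obtain ⟨h1, h2⟩ := twist_points A B D hp hp2
    refine ⟨hp, hpd, ?_⟩
    rcases jac_of_not_dvd hp hpD with hj | hj
    · left; rw [h1 hj] at h; exact ⟨hj, h⟩
    · right; rw [h2 hj] at h; exact ⟨hj, by linarith⟩
  · rintro ⟨hp, hpd, h⟩
    have hp2 : p ≠ 2 := by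
      rintro rfl
      exact hpd (Dvd.intro _ rfl)
    obtain ⟨h1, h2⟩ := twist_points A B D hp hp2
    rcases h with ⟨hj, h⟩ | ⟨hj, h⟩
    · have hpD := not_dvd_of_jac hp (by rw [hj]; decide : jacobiSym D p ≠ 0)
      exact ⟨hp, by rw [dvd_disc A B D hp hpD]; exact hpd, by rw [h1 hj]; exact h⟩
    · have hpD := not_dvd_of_jac hp (by rw [hj]; decide : jacobiSym D p ≠ 0)
      exact ⟨hp, by rw [dvd_disc A B D hp hpD]; exact hpd, by rw [h2 hj]; linarith⟩

lemma tot_piE (A B r : ℤ) (x : ℕ) :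
    tot (PG A B x) (fun p => (p : ℤ) + 1 - points A B p = r) (fun p => (p : ℤ) + 1 - points A B p = -r) =
      piE A B r x + piE A B (-r) x := by
  unfold tot piE PG
  refine congrArg₂ (· + ·) (congrArg card (Finset.ext fun p => ?_)) (congrArg card (Finset.ext fun p => ?_)) <;>
    simp only [mem_filter, and_assoc]

lemma g_ge : ∀ᶠ x : ℕ in atTop, (x : ℝ) ^ (1 / 4 : ℝ) ≤ √x / Real.log x := by
  have h := (isLittleO_log_rpow_atTop (by norm_num : (0 : ℝ) < 1 / 4)).comp_tendsto (tendsto_natCast_atTop_atTop (R := ℝ))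
  filter_upwards [h.bound (c := 1) one_pos, eventually_ge_atTop 3] with x hx hx3
  simp only [Function.comp_apply, one_mul] at hx
  have hx0 : (3 : ℝ) ≤ x := by exact_mod_cast hx3
  have hl : 0 < Real.log x := Real.log_pos (by linarith)
  rw [Real.norm_of_nonneg hl.le, Real.norm_of_nonneg (by positivity)] at hx
  rw [le_div_iff₀ hl]
  calc (x : ℝ) ^ (1 / 4 : ℝ) * Real.log x ≤ (x : ℝ) ^ (1 / 4 : ℝ) * (x : ℝ) ^ (1 / 4 : ℝ) := by gcongr
    _ = √x := by rw [← Real.rpow_add (by linarith), Real.sqrt_eq_rpow]; norm_num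

/-- Let `E : Y ^ 2 = X ^ 3 + A X + B` be any elliptic curve, `r` an integer and `K ≥ 0`. The following are equivalent:

(1) the mean of `π_{E, r}(x) log x / √x` and `π_{E, -r}(x) log x / √x` tends to `K` as `x → ∞`;

(2) for every `η > 0`, with some `C` and `c > 0`, the ratio `π_{E_D, r}(x) log x / √x` is in `[K - η, K + η]` for all `x` between
`(log N) ^ C` and `N ^ c`, for all but `N ^ (1 - c)` of the quadratic twists by `D`, `0 < |D| ≤ N`;

(3) for every `η > 0` and `a`, for `x` large and `N ≥ N(x)`, the ratio at `x` is in `[K - η, K + η]` for all but `x ^ (-a) N` of the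
twists;

(4) for every `η > 0` and some `a`, for `x` large and infinitely many `N`, the ratio at `x` is in `[K - η, K + η]` for at least
`x ^ (-a) N` of the twists.

In particular: if the conjecture of Lang and Trotter holds for `E` at `r` and `-r` then (2), (3) hold with the mean `K` of
the two constants. -/
theorem result (A B r : ℤ) (K : ℝ) (hK : 0 ≤ K) :
    [Tendsto (mean A B r) atTop (𝓝 K), Range A B r K, Most A B r K, Some A B r K].TFAE ∧
    ∀ c₁ c₂ : ℝ, Tendsto (fun x : ℕ => (piE A B r x : ℝ) * Real.log x / √x) atTop (𝓝 c₁) →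
      Tendsto (fun x : ℕ => (piE A B (-r) x : ℝ) * Real.log x / √x) atTop (𝓝 c₂) →
      Range A B r ((c₁ + c₂) / 2) ∧ Most A B r ((c₁ + c₂) / 2) := by
  have key : ∀ K : ℝ, 0 ≤ K → [Tendsto (mean A B r) atTop (𝓝 K), Range A B r K, Most A B r K, Some A B r K].TFAE := by
    intro K hK
    have h := tfae (PG A B) (fun p => (p : ℤ) + 1 - points A B p = r) (fun p => (p : ℤ) + 1 - points A B p = -r)
      (fun x => √x / Real.log x) (fun η s => |s - K| ≤ η) (PG_prop A B) (1 / 4) (by norm_num)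
      g_ge (asy_H1 K hK) (asy_H2 K hK)
    unfold StA StB StC StD at h
    simp only [tot_piE, ← piE_twist] at h
    push_cast at h
    have e : Tendsto (mean A B r) atTop (𝓝 K) ↔ ∀ η : ℝ, 0 < η → ∀ᶠ x : ℕ in atTop,
        |((piE A B r x : ℝ) + piE A B (-r) x) / (2 * (√x / Real.log x)) - K| ≤ η := by
      rw [Metric.tendsto_nhds]
      constructor
      · intro h η hη
        filter_upwards [h η hη] with x hx
        rw [Real.dist_eq] at hx
        exact hx.le
      · intro h η hη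
        filter_upwards [h (η / 2) (by positivity)] with x hx
        rw [Real.dist_eq]
        exact lt_of_le_of_lt hx (by linarith)
    rw [e]
    exact h
  refine ⟨key K hK, fun c₁ c₂ h₁ h₂ => ?_⟩
  have hm : Tendsto (mean A B r) atTop (𝓝 ((c₁ + c₂) / 2)) := by
    refine ((h₁.add h₂).div_const 2).congr' ?_
    filter_upwards [eventually_ge_atTop 2] with x hx
    have hx0 : (1 : ℝ) < x := by exact_mod_cast (by omega : 1 < x)
    have hl : 0 < Real.log x := Real.log_pos hx0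
    have hs : 0 < √(x : ℝ) := Real.sqrt_pos.2 (by linarith)
    unfold mean
    field_simp
  have hc : ∀ c : ℝ, ∀ s : ℤ, Tendsto (fun x : ℕ => (piE A B s x : ℝ) * Real.log x / √x) atTop (𝓝 c) → 0 ≤ c := by
    intro c s h
    refine ge_of_tendsto' h fun x => ?_
    have := Real.log_natCast_nonneg x
    positivity
  have hK' : 0 ≤ (c₁ + c₂) / 2 := by
    have := hc c₁ r h₁
    have := hc c₂ (-r) h₂
    linarith
  exact ⟨((key _ hK').out 0 1).1 hm, ((key _ hK').out 0 2).1 hm⟩

end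

end Pool.Agent.Results.MP_d74fca_nt.TwistDichotomy
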